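import Pool.Agent.Results.MP_7bf690_al.RankSeven

set_option autoImplicit false

namespace Pool.Agent.Results.MP_6d0c2f_al.CantorPower

open Pool.Agent.R700 Pool.Agent.R700.Zas Pool.Agent.R700.A7
open Pool.Agent.Results.MP_7bf690_al

universe u

/-- No direct summand of the abelian group `A` is both nonzero and indecomposable: if `A = B ⊕ C` with
`B ≠ 0`, then `B = B₁ ⊕ B₂` with `B₁ ≠ 0` and `B₂ ≠ 0`. -/
def SuperDecomposable (A : Type u) [AddCommGroup A] : Prop :=
  ∀ B C : AddSubgroup A, IsCompl B C → B ≠ ⊥ →
    ∃ B₁ B₂ : AddSubgroup A, B₁ ≠ ⊥ ∧ B₂ ≠ ⊥ ∧ B₁ ⊓ B₂ = ⊥ ∧ B₁ ⊔ B₂ = B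

/-- If every nonzero idempotent endomorphism is the sum of two nonzero orthogonal idempotents, then
the group is super-decomposable. -/
theorem superDecomposable_of {A : Type u} [AddCommGroup A]
    (h : ∀ e : A →+ A, (∀ a, e (e a) = e a) → (∃ a, e a ≠ 0) →
      ∃ f g : A →+ A, (∀ a, f (f a) = f a) ∧ (∀ a, g (g a) = g a) ∧ (∀ a, f (g a) = 0) ∧
        (∀ a, g (f a) = 0) ∧ (∀ a, f a + g a = e a) ∧ (∃ a, f a ≠ 0) ∧ ∃ a, g a ≠ 0) :
    SuperDecomposable A := by
  intro B C hBC hB
  have hex : ∀ a : A, ∃ b ∈ B, ∃ c ∈ C, b + c = a := fun a =>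
    AddSubgroup.mem_sup.1 (by rw [hBC.sup_eq_top]; trivial)
  have huniq : ∀ b b' c c' : A, b ∈ B → b' ∈ B → c ∈ C → c' ∈ C → b + c = b' + c' → b = b' := by
    intro b b' c c' hb hb' hc hc' heq
    have h1 : b - b' ∈ B ⊓ C := by
      refine ⟨B.sub_mem hb hb', ?_⟩
      have : b - b' = c' - c := by
        rw [sub_eq_sub_iff_add_eq_add, heq, add_comm]
      rw [this]
      exact C.sub_mem hc' hc
    rw [hBC.inf_eq_bot, AddSubgroup.mem_bot] at h1
    exact sub_eq_zero.1 h1
  choose β hβ γ hγ hβγ using hex
  let e : A →+ A := AddMonoidHom.mk' β (by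
    intro a a'
    refine huniq _ _ _ (γ a + γ a') (hβ _) (B.add_mem (hβ a) (hβ a')) (hγ (a + a'))
      (C.add_mem (hγ a) (hγ a')) ?_
    rw [hβγ]
    nth_rewrite 1 [← hβγ a, ← hβγ a']
    abel)
  have heβ : ∀ a, e a = β a := fun a => rfl
  have hβB : ∀ b ∈ B, β b = b := by
    intro b hb
    exact huniq _ _ _ 0 (hβ b) hb (hγ b) C.zero_mem (by rw [hβγ, add_zero])
  have he0 : ∃ a, e a ≠ 0 := by
    by_contra hcon
    push Not at hcon
    apply hB
    rw [eq_bot_iff]
    intro b hb
    rw [AddSubgroup.mem_bot, ← hβB b hb, ← heβ, hcon]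
  obtain ⟨f, g, aff, agg, afg, agf, asum, ⟨a0, hf0⟩, ⟨a1, hg0⟩⟩ := h e (fun a => by
    rw [heβ, heβ, hβB _ (hβ a)]) he0
  refine ⟨f.range, g.range, ?_, ?_, ?_, ?_⟩
  · intro h0
    apply hf0
    have : f a0 ∈ f.range := ⟨a0, rfl⟩
    rw [h0, AddSubgroup.mem_bot] at this
    exact this
  · intro h0
    apply hg0
    have : g a1 ∈ g.range := ⟨a1, rfl⟩
    rw [h0, AddSubgroup.mem_bot] at this
    exact this
  · rw [eq_bot_iff]
    rintro a ⟨⟨b, rfl⟩, ⟨c, hc⟩⟩
    rw [AddSubgroup.mem_bot]
    have h1 := aff b
    rw [← hc, afg] at h1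
    rw [← hc]
    exact h1.symm
  · apply le_antisymm
    · rw [sup_le_iff]
      constructor
      · rintro _ ⟨a, rfl⟩
        have h1 : e (f a) = f a := by
          rw [← asum, aff, agf, add_zero]
        rw [← h1, heβ]
        exact hβ _
      · rintro _ ⟨a, rfl⟩
        have h1 : e (g a) = g a := by
          rw [← asum, afg, agg, zero_add]
        rw [← h1, heβ]
        exact hβ _
    · intro b hb
      rw [← hβB b hb, ← heβ, ← asum]
      exact AddSubgroup.add_mem_sup ⟨b, rfl⟩ ⟨b, rfl⟩

/-- the Cantor space -/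
abbrev X : Type := ℕ → Bool

/-- the ring of locally constant functions with rational values -/
abbrev EE : Type := LocallyConstant X (A7 ℚ)

/-- the functions with integral values -/
def R : Subring EE := (LocallyConstant.mapRingHom (X := X) A7.incl).range

theorem mem_R (e : EE) : e ∈ R ↔ ∀ x, e x ∈ RankSeven.R := by
  unfold R
  rw [RingHom.mem_range]
  constructor
  · rintro ⟨s, rfl⟩ x
    rw [RankSeven.mem_R]
    exact ⟨s x, rfl⟩
  · intro h
    have h' : ∀ x, ∃ s : A7 ℤ, A7.incl s = e x := fun x => (RankSeven.mem_R _).1 (h x)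
    let inv : A7 ℚ → A7 ℤ := Function.invFun A7.incl
    have hinv : ∀ x, A7.incl (inv (e x)) = e x := fun x => Function.invFun_eq (h' x)
    refine ⟨LocallyConstant.map inv e, ?_⟩
    apply LocallyConstant.ext
    intro x
    exact hinv x

theorem h1 : ∀ e : EE, ∃ n : ℕ, 0 < n ∧ n • e ∈ R := by
  intro e
  have hfin := e.range_finite
  choose n hn hne using RankSeven.h1
  refine ⟨∏ v ∈ hfin.toFinset, n v, Finset.prod_pos fun v _ => hn v, ?_⟩
  rw [mem_R]
  intro x
  have hx : e x ∈ hfin.toFinset := by simp
  obtain ⟨m, hm⟩ := Finset.dvd_prod_of_mem n hx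
  have : ((∏ v ∈ hfin.toFinset, n v) • e) x = m • (n (e x) • e x) := by
    rw [hm, LocallyConstant.coe_smul, Pi.smul_apply, mul_comm, mul_smul]
  rw [this]
  exact nsmul_mem (hne _) _

theorem h2 : ∀ e : EE,
    {p : ℕ | ∃ hp : p.Prime, ∃ f ∈ Loc R p hp, e = p • f}.Infinite → e = 0 := by
  intro e hinf
  apply LocallyConstant.ext
  intro x
  apply RankSeven.h2
  refine hinf.mono ?_
  rintro p ⟨hp, f, hf, hef⟩
  obtain ⟨b, hb, hbf⟩ := (mem_Loc R p hp f).1 hf
  refine ⟨hp, f x, (mem_Loc _ p hp _).2 ⟨b, hb, ?_⟩, ?_⟩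
  · exact (mem_R _).1 hbf x
  · rw [hef]
    rfl

/-- the generators -/
def G : Set EE := {g | ∃ U : TopologicalSpace.Clopens X, g = LocallyConstant.charFn (A7 ℚ) U.isClopen} ∪
  (fun v => LocallyConstant.const X v) '' RankSeven.G

theorem hGc : G.Countable := by
  have : Countable (TopologicalSpace.Clopens X) := by
    rw [TopologicalSpace.Clopens.countable_iff_secondCountable]
    infer_instance
  unfold G
  refine Set.Countable.union ?_ ?_
  · have : {g : EE | ∃ U : TopologicalSpace.Clopens X,
        g = LocallyConstant.charFn (A7 ℚ) U.isClopen} =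
        Set.range (fun U : TopologicalSpace.Clopens X =>
          LocallyConstant.charFn (A7 ℚ) U.isClopen) := by
      ext g
      constructor
      · rintro ⟨U, rfl⟩; exact ⟨U, rfl⟩
      · rintro ⟨U, rfl⟩; exact ⟨U, rfl⟩
    rw [this]
    exact Set.countable_range _
  · refine Set.Countable.image ?_ _
    unfold RankSeven.G
    exact (Set.toFinite _).countable

theorem char_apply (S : Type) [Ring S] {U : Set X} (hU : IsClopen U) (x : X) [Decidable (x ∈ U)] :
    LocallyConstant.charFn S hU x = if x ∈ U then (1 : S) else 0 := by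
  rw [LocallyConstant.coe_charFn, Set.indicator_apply]
  rfl

theorem hGs : ∀ g ∈ G, g * g = 0 ∨ g * g = g := by
  classical
  rintro g (⟨U, rfl⟩ | ⟨v, hv, rfl⟩)
  · right
    apply LocallyConstant.ext
    intro x
    rw [LocallyConstant.mul_apply, char_apply]
    split_ifs <;> simp
  · rcases RankSeven.hsq v hv with h | h
    · left
      apply LocallyConstant.ext
      intro x
      exact h
    · right
      apply LocallyConstant.ext
      intro x
      exact h

theorem const_mem (v : A7 ℚ) (hv : v ∈ RankSeven.R) :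
    LocallyConstant.const X v ∈ Subring.closure G := by
  rw [← RankSeven.hG] at hv
  have h1 : Subring.closure RankSeven.G ≤
      (Subring.closure G).comap (LocallyConstant.constRingHom (X := X) (Y := A7 ℚ)) := by
    rw [Subring.closure_le]
    intro g hg
    change LocallyConstant.const X g ∈ Subring.closure G
    exact Subring.subset_closure (Or.inr ⟨g, hg, rfl⟩)
  exact h1 hv

theorem hG : Subring.closure G = R := by
  classical
  apply le_antisymm
  · rw [Subring.closure_le]
    rintro g (⟨U, rfl⟩ | ⟨v, hv, rfl⟩)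
    · change _ ∈ R
      rw [mem_R]
      intro x
      rw [char_apply]
      split_ifs
      · exact Subring.one_mem _
      · exact Subring.zero_mem _
    · change _ ∈ R
      rw [mem_R]
      intro x
      rw [← RankSeven.hG]
      exact Subring.subset_closure hv
  · intro e he
    rw [mem_R] at he
    have hfin := e.range_finite
    have heq : e = ∑ v ∈ hfin.toFinset,
        LocallyConstant.charFn (A7 ℚ) (e.isLocallyConstant.isClopen_fiber v) *
          LocallyConstant.const X v := by
      apply LocallyConstant.ext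
      intro x
      have h3 : (∑ v ∈ hfin.toFinset,
          LocallyConstant.charFn (A7 ℚ) (e.isLocallyConstant.isClopen_fiber v) *
          LocallyConstant.const X v) x = ∑ v ∈ hfin.toFinset,
          (LocallyConstant.charFn (A7 ℚ) (e.isLocallyConstant.isClopen_fiber v) *
          LocallyConstant.const X v) x :=
        map_sum (LocallyConstant.evalRingHom (Y := A7 ℚ) x) _ _
      rw [h3, Finset.sum_eq_single (e x)]
      · rw [LocallyConstant.mul_apply, char_apply]
        simp
      · intro v _ hv
        rw [LocallyConstant.mul_apply, char_apply, if_neg, zero_mul]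
        exact fun h => hv h.symm
      · intro h
        exfalso
        apply h
        simp
    rw [heq]
    refine Subring.sum_mem _ fun v hv => Subring.mul_mem _ ?_ (const_mem v ?_)
    · exact Subring.subset_closure (Or.inl ⟨⟨_, e.isLocallyConstant.isClopen_fiber v⟩, rfl⟩)
    · rw [Set.Finite.mem_toFinset] at hv
      obtain ⟨x, rfl⟩ := hv
      exact he x

/-- the integral functions -/
noncomputable def equivR : LocallyConstant X (A7 ℤ) ≃+* R :=
  RingEquiv.ofBijective ((LocallyConstant.mapRingHom (X := X) A7.incl).rangeRestrict)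
    ⟨fun s t h => by
      have h1 : LocallyConstant.mapRingHom (X := X) A7.incl s =
        LocallyConstant.mapRingHom (X := X) A7.incl t := congrArg Subtype.val h
      apply LocallyConstant.ext
      intro x
      exact A7.incl_injective (LocallyConstant.congr_fun h1 x),
      RingHom.rangeRestrict_surjective _⟩

theorem cE {S : Type} [Ring S] (hS : CentrallyEssential S) :
    CentrallyEssential (LocallyConstant X S) := by
  classical
  intro f hf
  have hex : ∃ x, f x ≠ 0 := by
    by_contra hcon
    push Not at hcon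
    exact hf (LocallyConstant.ext hcon)
  obtain ⟨x0, hx0⟩ := hex
  obtain ⟨z, hz, w, hw, hz0, hw0, hzw⟩ := hS (f x0) hx0
  obtain ⟨U, hU, hcl⟩ : ∃ U : Set X, (∀ x, x ∈ U ↔ f x = f x0) ∧ IsClopen U :=
    ⟨{x | f x = f x0}, fun x => Set.mem_ofPred, f.isLocallyConstant.isClopen_fiber (f x0)⟩
  have hval : ∀ (v : S) (x : X), (LocallyConstant.charFn S hcl * LocallyConstant.const X v) x =
      if x ∈ U then v else 0 := by
    intro v x
    rw [LocallyConstant.mul_apply, char_apply]
    split_ifs
    · rw [one_mul]; rfl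
    · rw [zero_mul]
  have hc : ∀ v ∈ Subring.center S,
      LocallyConstant.charFn S hcl * LocallyConstant.const X v ∈
        Subring.center (LocallyConstant X S) := by
    intro v hv
    rw [Subring.mem_center_iff] at *
    intro g
    apply LocallyConstant.ext
    intro x
    rw [LocallyConstant.mul_apply, LocallyConstant.mul_apply _ g, hval]
    split_ifs
    · exact hv (g x)
    · simp
  refine ⟨_, hc z hz, _, hc w hw, ?_, ?_, ?_⟩
  · intro h
    have h1 := LocallyConstant.congr_fun h x0
    rw [hval, if_pos ((hU x0).2 rfl)] at h1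
    exact hz0 h1
  · intro h
    have h1 := LocallyConstant.congr_fun h x0
    rw [hval, if_pos ((hU x0).2 rfl)] at h1
    exact hw0 h1
  · apply LocallyConstant.ext
    intro x
    rw [LocallyConstant.mul_apply, hval, hval]
    split_ifs with hx
    · rw [(hU x).1 hx]
      exact hzw
    · simp

/-- The Cantor space has no isolated points. -/
theorem exists_split {U : Set X} (hU : IsClopen U) (hne : U.Nonempty) :
    ∃ V : Set X, IsClopen V ∧ (U ∩ V).Nonempty ∧ (U \ V).Nonempty := by
  classical
  obtain ⟨x, hx⟩ := hne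
  by_contra hcon
  push Not at hcon
  let y : ℕ → X := fun n => Function.update x n (!x n)
  have hy : Filter.Tendsto y Filter.atTop (nhds x) := by
    rw [tendsto_pi_nhds]
    intro i
    refine tendsto_const_nhds.congr' ?_
    filter_upwards [Filter.eventually_gt_atTop i] with n hn
    simp only [y]
    rw [Function.update_of_ne (by omega)]
  have h1 : ∀ᶠ n in Filter.atTop, y n ∈ U := hy.eventually (hU.isOpen.mem_nhds hx)
  obtain ⟨n, hn⟩ := h1.exists
  let V : Set X := (fun z : X => z n) ⁻¹' {x n}
  have hV : IsClopen V := (isClopen_discrete {x n}).preimage (continuous_apply n)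
  have hxV : x ∈ V := by simp [V]
  have h2 := hcon V hV ⟨x, hx, hxV⟩
  have h3 : y n ∈ U \ V := by
    refine ⟨hn, ?_⟩
    simp [V, y]
  rw [h2] at h3
  exact h3

/-- There is a super-decomposable torsion-free abelian group whose endomorphism ring is centrally
essential and not commutative. -/
theorem result : ∃ (A : Type) (_ : AddCommGroup A),
    (∀ (n : ℕ) (a : A), 0 < n → n • a = 0 → a = 0) ∧
    SuperDecomposable A ∧
    CentrallyEssential (AddMonoid.End A) ∧
    ∃ f g : AddMonoid.End A, f * g ≠ g * f := by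
  classical
  obtain ⟨h, hh, ⟨e⟩⟩ := exists_end R h1 h2 G hG hGc hGs
  have htf : ∀ (n : ℕ) (a : Grp R h), 0 < n → n • a = 0 → a = 0 := by
    intro n a hn ha
    have h3 : n • (a : EE) = 0 := by
      rw [← AddSubgroup.coe_nsmul, ha]
      rfl
    rw [← Nat.cast_smul_eq_nsmul ℚ n] at h3
    have hn0 : (n : ℚ) ≠ 0 := by exact_mod_cast hn.ne'
    apply Subtype.ext
    have h4 := congrArg (fun z : EE => (n : ℚ)⁻¹ • z) h3
    simp only [smul_smul, inv_mul_cancel₀ hn0, one_smul, smul_zero] at h4
    exact h4
  let E : LocallyConstant X (A7 ℤ) ≃+* AddMonoid.End (Grp R h) := equivR.trans e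
  refine ⟨Grp R h, inferInstance, htf, ?_, ?_, ?_⟩
  · apply superDecomposable_of
    intro f hff hf0
    obtain ⟨r, hr⟩ := E.surjective f
    have hrr : r * r = r := by
      apply E.injective
      rw [map_mul, hr]
      exact AddMonoidHom.ext hff
    have hval : ∀ x, r x = 0 ∨ r x = 1 := by
      intro x
      have h3 : r x * r x = 1 • r x := by
        rw [one_smul]
        exact LocallyConstant.congr_fun hrr x
      rcases RankSeven.sq_eq 1 (r x) one_pos h3 with h4 | h4
      · exact Or.inl h4
      · right; rw [h4, one_smul]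
    obtain ⟨U, hU, hcl⟩ : ∃ U : Set X, (∀ x, x ∈ U ↔ r x = 1) ∧ IsClopen U :=
      ⟨{x | r x = 1}, fun x => Set.mem_ofPred, r.isLocallyConstant.isClopen_fiber 1⟩
    have hrU : ∀ x, r x = if x ∈ U then 1 else 0 := by
      intro x
      split_ifs with hx
      · exact (hU x).1 hx
      · rcases hval x with h3 | h3
        · exact h3
        · exact absurd ((hU x).2 h3) hx
    have hne : U.Nonempty := by
      by_contra hcon
      rw [Set.not_nonempty_iff_eq_empty] at hcon
      have h3 : r = 0 := by
        apply LocallyConstant.ext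
        intro x
        rw [hrU, hcon, if_neg (Set.notMem_empty x)]
        rfl
      rw [h3, map_zero] at hr
      obtain ⟨a, ha⟩ := hf0
      apply ha
      exact (DFunLike.congr_fun hr a).symm
    obtain ⟨V, hV, hne1, hne2⟩ := exists_split hcl hne
    let r1 : LocallyConstant X (A7 ℤ) := LocallyConstant.charFn (A7 ℤ) (hcl.inter hV)
    let r2 : LocallyConstant X (A7 ℤ) := LocallyConstant.charFn (A7 ℤ) (hcl.diff hV)
    have hr1 : ∀ x, r1 x = if x ∈ U ∩ V then 1 else 0 := fun x => char_apply _ _ _
    have hr2 : ∀ x, r2 x = if x ∈ U \ V then 1 else 0 := fun x => char_apply _ _ _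
    have k1 : r1 * r1 = r1 := by
      apply LocallyConstant.ext; intro x
      rw [LocallyConstant.mul_apply, hr1]; split_ifs <;> simp
    have k2 : r2 * r2 = r2 := by
      apply LocallyConstant.ext; intro x
      rw [LocallyConstant.mul_apply, hr2]; split_ifs <;> simp
    have k3 : r1 * r2 = 0 := by
      apply LocallyConstant.ext; intro x
      rw [LocallyConstant.mul_apply, hr1, hr2]
      split_ifs with h3 h4
      · exact absurd h3.2 h4.2
      · simp
      · simp
      · simp
    have k4 : r2 * r1 = 0 := by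
      apply LocallyConstant.ext; intro x
      rw [LocallyConstant.mul_apply, hr1, hr2]
      split_ifs with h3 h4
      · exact absurd h4.2 h3.2
      · simp
      · simp
      · simp
    have k5 : r1 + r2 = r := by
      apply LocallyConstant.ext; intro x
      rw [LocallyConstant.add_apply, hr1, hr2, hrU]
      by_cases h3 : x ∈ U <;> by_cases h4 : x ∈ V <;> simp [h3, h4]
    have k6 : r1 ≠ 0 := by
      obtain ⟨x, hx⟩ := hne1
      intro h0
      have h3 := LocallyConstant.congr_fun h0 x
      rw [hr1, if_pos hx] at h3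
      have h4 := congrArg A7.o h3
      simp at h4
    have k7 : r2 ≠ 0 := by
      obtain ⟨x, hx⟩ := hne2
      intro h0
      have h3 := LocallyConstant.congr_fun h0 x
      rw [hr2, if_pos hx] at h3
      have h4 := congrArg A7.o h3
      simp at h4
    have k8 : ∀ s : LocallyConstant X (A7 ℤ), s ≠ 0 →
        ∃ a, (E s : Grp R h →+ Grp R h) a ≠ 0 := by
      intro s hs
      by_contra hcon
      push Not at hcon
      apply hs
      apply (map_eq_zero_iff E E.injective).1
      exact AddMonoidHom.ext hcon
    refine ⟨E r1, E r2, ?_, ?_, ?_, ?_, ?_, k8 r1 k6, k8 r2 k7⟩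
    · intro a
      have h3 := map_mul E r1 r1
      rw [k1] at h3
      exact (DFunLike.congr_fun h3 a).symm
    · intro a
      have h3 := map_mul E r2 r2
      rw [k2] at h3
      exact (DFunLike.congr_fun h3 a).symm
    · intro a
      have h3 := map_mul E r1 r2
      rw [k3, map_zero] at h3
      exact (DFunLike.congr_fun h3 a).symm
    · intro a
      have h3 := map_mul E r2 r1
      rw [k4, map_zero] at h3
      exact (DFunLike.congr_fun h3 a).symm
    · intro a
      have h3 := map_add E r1 r2
      rw [k5, hr] at h3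
      exact (DFunLike.congr_fun h3 a).symm
  · exact (cE A7.cE).of_equiv E
  · refine ⟨E (LocallyConstant.const X ⟨0, 1, 0, 0, 0, 0, 0⟩),
      E (LocallyConstant.const X ⟨0, 0, 1, 0, 0, 0, 0⟩), ?_⟩
    rw [← map_mul, ← map_mul]
    intro hc
    have h3 := LocallyConstant.congr_fun (E.injective hc) (fun _ => true)
    have h4 := congrArg A7.c h3
    simp at h4

end Pool.Agent.Results.MP_6d0c2f_al.CantorPower
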